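import Mathlib
import Pool.Agent.Y166.SM.Stm

/-!
# Minors and counting independence (job SM-2)
-/

set_option autoImplicit false

namespace Pool.Agent.Y337.SM

open Pool.Agent.Y166.SM

theorem stmMinor : StmMinor := by
  intro k _ C hC
  have hinj : Function.Injective C.mulVec := by
    intro x y hxy
    have h1 : C.mulVec (x - y) = 0 := by rw [Matrix.mulVec_sub, hxy, sub_self]
    exact sub_eq_zero.1 (hC _ h1)
  have hcol : LinearIndependent k C.col := Matrix.mulVec_injective_iff.1 hinj
  have hrank : C.rank = 3 := by
    have h1 : C.transpose.rank = Fintype.card (Fin 3) := LinearIndependent.rank_matrix hcol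
    rw [Matrix.rank_transpose] at h1
    simpa using h1
  have hfin : Module.finrank k (Submodule.span k (Set.range C.row)) = 3 := by
    rw [← Matrix.rank_eq_finrank_span_row]
    exact hrank
  obtain ⟨f, hf, -, hind⟩ := Submodule.exists_fun_fin_finrank_span_eq k (Set.range C.row)
  choose g hg using hf
  let e : Fin 3 ≃ Fin (Module.finrank k (Submodule.span k (Set.range C.row))) :=
    (finCongr hfin).symm
  refine ⟨fun i => g (e i), ?_⟩
  have hli : LinearIndependent k (C.submatrix (fun i => g (e i)) id).row := by
    have h1 : (C.submatrix (fun i => g (e i)) id).row = f ∘ e := by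
      funext i
      exact hg (e i)
    rw [h1]
    exact hind.comp _ e.injective
  have h2 := Matrix.linearIndependent_rows_iff_isUnit.1 hli
  rw [Matrix.isUnit_iff_isUnit_det] at h2
  exact h2.ne_zero

theorem stmInd : StmInd := by
  intro k W ι ρ _ _ _ _ _ t x ht hcard hmem
  let L := IntermediateField.adjoin k (Set.range x)
  let x' : ρ → L := fun j => ⟨x j, IntermediateField.subset_adjoin k _ ⟨j, rfl⟩⟩
  let t' : ι → L := fun i => ⟨t i, hmem i⟩
  have ht' : AlgebraicIndependent k t' := by
    have h1 : AlgebraicIndependent k (L.val ∘ t') := ht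
    exact AlgebraicIndependent.of_comp L.val h1
  have hmap : (Algebra.adjoin k (Set.range x')).map L.val = Algebra.adjoin k (Set.range x) := by
    rw [AlgHom.map_adjoin]
    congr 1
    rw [← Set.range_comp]
    rfl
  have halg : Algebra.IsAlgebraic (Algebra.adjoin k (Set.range x')) L := by
    refine ⟨fun y => ?_⟩
    obtain ⟨a, ha, b, hb, hab⟩ := IntermediateField.mem_adjoin_iff_div.1 y.2
    rw [← hmap] at ha hb
    obtain ⟨a', ha', rfl⟩ := ha
    obtain ⟨b', hb', rfl⟩ := hb
    have h1 : y = a' * b'⁻¹ := by
      apply Subtype.ext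
      rw [hab, div_eq_mul_inv]
      rfl
    rw [h1]
    have h2 : IsAlgebraic (Algebra.adjoin k (Set.range x')) a' :=
      isAlgebraic_algebraMap (⟨a', ha'⟩ : Algebra.adjoin k (Set.range x'))
    have h3 : IsAlgebraic (Algebra.adjoin k (Set.range x')) b' :=
      isAlgebraic_algebraMap (⟨b', hb'⟩ : Algebra.adjoin k (Set.range x'))
    exact h2.mul h3.inv
  have hle : Cardinal.mk ρ ≤ Algebra.trdeg k L := by
    have h1 : Cardinal.mk ρ ≤ Cardinal.mk ι := by
      rw [← Nat.cast_card, ← Nat.cast_card]
      exact_mod_cast hcard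
    exact h1.trans ht'.cardinalMk_le_trdeg
  have hb := Algebra.IsAlgebraic.isTranscendenceBasis_of_le_trdeg_of_finite k x' hle
  have h4 : AlgebraicIndependent k (L.val ∘ x') := hb.1.map' (f := L.val) L.val.injective
  exact h4

end Pool.Agent.Y337.SM
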